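import Pool.Agent.L7h96.BRW.Graph

/-!
The trace of a critical branching random walk on a nonamenable transitive graph has infinitely many
ends almost surely.
-/

set_option autoImplicit false
set_option linter.unusedSectionVars false

namespace Pool.Agent.Results.MP_9b4c76_pr.InfinitelyManyEnds

open MeasureTheory ProbabilityTheory Filter
open scoped ENNReal NNReal

/-- The `n`-step transition probabilities of simple random walk on `G`. -/
noncomputable def walkProb {V : Type*} (G : SimpleGraph V) [G.LocallyFinite] : ℕ → V → V → ℝ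
  | 0, x, y => open scoped Classical in if x = y then 1 else 0
  | n + 1, x, y => (∑ z ∈ G.neighborFinset x, walkProb G n z y) / G.degree x

/-- The spectral radius `limsup p_n(o,o)^{1/n}` of simple random walk on `G`. -/
noncomputable def spectralRadius {V : Type*} (G : SimpleGraph V) [G.LocallyFinite] (o : V) : ℝ :=
  limsup (fun n : ℕ => walkProb G n o o ^ (1 / (n : ℝ))) atTop

/-- The particles are finite words; the child number `c` of the particle `w` is `c :: w`, and `N w`
is the number of children of `w`. This says which particles exist. -/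
def Exists (N : List ℕ → ℕ) : List ℕ → Prop
  | [] => True
  | c :: w => Exists N w ∧ c < N w

/-- The position of a particle: the root sits at `o`, and the child `c` of `w` makes the step number
`ξ w c` from the position of `w`. Here `nb x` numbers the neighbours of `x`. -/
def position {V : Type*} {D : ℕ} (nb : V → Fin D → V) (o : V) (ξ : List ℕ → ℕ → Fin D) :
    List ℕ → V
  | [] => o
  | c :: w => nb (position nb o ξ w) (ξ w c)

/-- The trace: the graph formed by all edges traversed by particles. -/
def trace {V : Type*} {D : ℕ} (nb : V → Fin D → V) (o : V) (N : List ℕ → ℕ)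
    (ξ : List ℕ → ℕ → Fin D) : SimpleGraph V :=
  SimpleGraph.fromEdgeSet {e | ∃ (w : List ℕ) (c : ℕ), Exists N (c :: w) ∧
    e = s(position nb o ξ w, position nb o ξ (c :: w))}

/-- The numbers of children and the steps of a branching random walk with offspring law `μ`: the
labels `(N w, (ξ w c)_c)` of the particles are independent, and each of them has law
`μ ⊗ (uniform law on Fin D)^{⊗ ℕ}`. -/
structure IsBRW (μ : PMF ℕ) {D : ℕ} [NeZero D] {Ω : Type*} [MeasurableSpace Ω] (P : Measure Ω)
    (N : List ℕ → Ω → ℕ) (ξ : List ℕ → ℕ → Ω → Fin D) : Prop where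
  measurable_N : ∀ w, Measurable (N w)
  measurable_ξ : ∀ w c, Measurable (ξ w c)
  law : ∀ w, P.map (fun ω => (N w ω, fun c => ξ w c ω)) =
    μ.toMeasure.prod (Measure.infinitePi fun _ : ℕ => (PMF.uniformOfFintype (Fin D)).toMeasure)
  indep : iIndepFun (fun w ω => (N w ω, fun c => ξ w c ω)) P

/-- The number of ends of a graph: the supremum over finite vertex sets `K` of the number of
infinite connected components of `H ∖ K`. -/
noncomputable def numEnds {V : Type*} (H : SimpleGraph V) : ℕ∞ :=
  ⨆ K : Finset V,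
    {C : (H.induce ((K : Set V)ᶜ)).ConnectedComponent | C.supp.Infinite}.encard

open Pool.Agent.L7h96.BRW

section aux

variable {V : Type*} {G : SimpleGraph V} [G.LocallyFinite] {D : ℕ} [NeZero D] {nb : V → Fin D → V}

theorem nbf_eq [DecidableEq V]
    (hnb : ∀ x, Function.Injective (nb x) ∧ Set.range (nb x) = G.neighborSet x)
    (x : V) : G.neighborFinset x = Finset.univ.image (nb x) := by
  ext y
  rw [SimpleGraph.mem_neighborFinset, Finset.mem_image, ← SimpleGraph.mem_neighborSet, ← (hnb x).2]
  simp

theorem sum_nb (hnb : ∀ x, Function.Injective (nb x) ∧ Set.range (nb x) = G.neighborSet x)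
    {β : Type*} [AddCommMonoid β] (x : V) (f : V → β) :
    ∑ z ∈ G.neighborFinset x, f z = ∑ i, f (nb x i) := by
  classical
  rw [nbf_eq hnb x, Finset.sum_image]
  exact fun a _ b _ h => (hnb x).1 h

theorem degree_eq (hnb : ∀ x, Function.Injective (nb x) ∧ Set.range (nb x) = G.neighborSet x)
    (x : V) : G.degree x = D := by
  classical
  rw [← SimpleGraph.card_neighborFinset_eq_degree, nbf_eq hnb x,
    Finset.card_image_of_injective _ (hnb x).1, Finset.card_univ, Fintype.card_fin]

theorem adj_iff (hnb : ∀ x, Function.Injective (nb x) ∧ Set.range (nb x) = G.neighborSet x)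
    (x y : V) : G.Adj x y ↔ ∃ i, nb x i = y := by
  rw [← SimpleGraph.mem_neighborSet, ← (hnb x).2]
  rfl

theorem rw_of (hnb : ∀ x, Function.Injective (nb x) ∧ Set.range (nb x) = G.neighborSet x)
    (hG : G.Connected) (htrans : ∀ x y : V, ∃ γ : G ≃g G, γ x = y) : RW nb := by
  classical
  refine ⟨?_, ?_, ?_⟩
  · have h1 : ∀ x y, (Finset.univ.filter fun i => nb x i = y).card = if G.Adj x y then 1 else 0 := by
      intro x y
      split_ifs with h
      · obtain ⟨i, hi⟩ := (adj_iff hnb x y).1 h
        rw [Finset.card_eq_one]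
        refine ⟨i, ?_⟩
        ext j
        rw [Finset.mem_filter, Finset.mem_singleton]
        constructor
        · rintro ⟨-, hj⟩
          exact (hnb x).1 (hj.trans hi.symm)
        · rintro rfl
          exact ⟨Finset.mem_univ _, hi⟩
      · rw [Finset.card_eq_zero, Finset.filter_eq_empty_iff]
        intro i _ hi
        exact h ((adj_iff hnb x y).2 ⟨i, hi⟩)
    intro x y
    have h2 := h1 x y
    have h3 := h1 y x
    simp only [G.adj_comm y x] at h3
    convert h2.trans h3.symm
  · intro x y
    obtain ⟨γ, hγ⟩ := htrans x y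
    refine ⟨γ, hγ, γ.injective, fun z f => ?_⟩
    unfold av
    congr 1
    rw [← sum_nb hnb (γ z) f, ← sum_nb hnb z fun a => f (γ a)]
    have : G.neighborFinset (γ z) = (G.neighborFinset z).image γ := by
      ext a
      rw [SimpleGraph.mem_neighborFinset, Finset.mem_image]
      constructor
      · intro h
        refine ⟨γ.symm a, ?_, by simp⟩
        rw [SimpleGraph.mem_neighborFinset, ← γ.map_adj_iff]
        simpa using h
      · rintro ⟨b, hb, rfl⟩
        rw [SimpleGraph.mem_neighborFinset] at hb
        exact γ.map_adj_iff.2 hb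
    rw [this, Finset.sum_image]
    exact fun a _ b _ h => γ.injective h
  · intro x y
    obtain ⟨p⟩ := hG.preconnected x y
    induction p with
    | nil => exact Relation.ReflTransGen.refl
    | cons h p ih => exact Relation.ReflTransGen.head ((adj_iff hnb _ _).1 h) ih

theorem countable_of (hR : RW nb) (x : V) : Countable V := by
  have hs : Function.Surjective fun w : List (Fin D) => w.foldl nb x := by
    intro y
    have h := hR.conn x y
    induction h with
    | refl => exact ⟨[], rfl⟩
    | tail _ hbc ih =>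
      obtain ⟨w, hw⟩ := ih
      obtain ⟨i, hi⟩ := hbc
      refine ⟨w ++ [i], ?_⟩
      simp only at hw ⊢
      rw [List.foldl_append, hw]
      exact hi
  exact hs.countable

theorem walkProb_mem (hnb : ∀ x, Function.Injective (nb x) ∧ Set.range (nb x) = G.neighborSet x)
    (n : ℕ) (x y : V) : 0 ≤ walkProb G n x y ∧ walkProb G n x y ≤ 1 := by
  have hD : (0 : ℝ) < D := by
    have := NeZero.pos D
    exact_mod_cast this
  induction n generalizing x with
  | zero =>
    unfold walkProb
    split_ifs <;> norm_num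
  | succ n ih =>
    unfold walkProb
    rw [degree_eq hnb, sum_nb hnb x fun z => walkProb G n z y]
    refine ⟨div_nonneg (Finset.sum_nonneg fun i _ => (ih _).1) hD.le, ?_⟩
    rw [div_le_one hD]
    calc ∑ i, walkProb G n (nb x i) y ≤ ∑ _i : Fin D, (1 : ℝ) :=
          Finset.sum_le_sum fun i _ => (ih _).2
      _ = D := by simp

theorem pn_eq (hnb : ∀ x, Function.Injective (nb x) ∧ Set.range (nb x) = G.neighborSet x)
    (n : ℕ) (x y : V) : pn nb n x y = ENNReal.ofReal (walkProb G n x y) := by
  induction n generalizing x with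
  | zero =>
    unfold walkProb pn
    split_ifs <;> simp
  | succ n ih =>
    unfold walkProb
    rw [degree_eq hnb, sum_nb hnb x fun z => walkProb G n z y, pn_succ,
      ← av_ofReal fun i => (walkProb_mem hnb n (nb x i) y).1]
    simp_rw [ih]

theorem Fr_finite (hnb : ∀ x, Function.Injective (nb x) ∧ Set.range (nb x) = G.neighborSet x)
    (hR : RW nb) (o : V) {r : ℝ≥0∞}
    (hr : r < ENNReal.ofReal (1 / spectralRadius G o)) (x : V) : Fr nb r x x ≠ ∞ := by
  obtain ⟨γ, rfl, hγ⟩ := hR.trans o x
  rw [Fr_aut hγ]
  set ρ := spectralRadius G o with hρ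
  have hρ1 : 0 < 1 / ρ := by
    by_contra h
    rw [ENNReal.ofReal_eq_zero.2 (not_lt.1 h)] at hr
    exact not_lt_zero hr
  have hρ0 : 0 < ρ := one_div_pos.1 hρ1
  have hrt : r ≠ ∞ := hr.ne_top
  obtain ⟨t, rfl⟩ : ∃ t : ℝ≥0, r = t := ⟨r.toNNReal, (ENNReal.coe_toNNReal hrt).symm⟩
  have ht : (t : ℝ) < 1 / ρ := by
    rw [← ENNReal.ofReal_coe_nnreal] at hr
    exact (ENNReal.ofReal_lt_ofReal_iff hρ1).1 hr
  have ht0 : (0 : ℝ) ≤ t := t.2
  have htρ : (t : ℝ) * ρ < 1 := by
    rwa [lt_div_iff₀ hρ0] at ht
  set δ := (1 - (t : ℝ) * ρ) / (2 * (t + 1)) with hδ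
  have hδ0 : 0 < δ := div_pos (by linarith) (by positivity)
  have htδ : (t : ℝ) * (ρ + δ) < 1 := by
    have h1 : (t : ℝ) * δ ≤ (1 - (t : ℝ) * ρ) / 2 := by
      have h2 : δ * (t + 1) = (1 - (t : ℝ) * ρ) / 2 := by
        rw [hδ]
        field_simp
      nlinarith
    linarith
  have hbdd : IsBoundedUnder (· ≤ ·) atTop
      (fun n : ℕ => walkProb G n o o ^ (1 / (n : ℝ))) := by
    refine isBoundedUnder_of ⟨1, fun n => ?_⟩
    exact Real.rpow_le_one (walkProb_mem hnb n o o).1 (walkProb_mem hnb n o o).2 (by positivity)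
  have hev : ∀ᶠ n : ℕ in atTop, walkProb G n o o ^ (1 / (n : ℝ)) < ρ + δ :=
    eventually_lt_of_limsup_lt (show limsup (fun n : ℕ => walkProb G n o o ^ (1 / (n : ℝ))) atTop <
      ρ + δ by change ρ < ρ + δ; linarith) hbdd
  have hev2 : ∀ᶠ n : ℕ in atTop,
      ‖((n : ℝ) + 1) * ((t : ℝ) ^ n * walkProb G n o o)‖ ≤
        ((n : ℝ) ^ 1 * (t * (ρ + δ)) ^ n + (n : ℝ) ^ 0 * (t * (ρ + δ)) ^ n) := by
    filter_upwards [hev, eventually_ge_atTop 1] with n hn hn1
    have hp := walkProb_mem hnb n o o
    have h1 : walkProb G n o o ≤ (ρ + δ) ^ n := by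
      have h2 : walkProb G n o o = (walkProb G n o o ^ (1 / (n : ℝ))) ^ n := by
        rw [← Real.rpow_natCast, ← Real.rpow_mul hp.1, one_div_mul_cancel, Real.rpow_one]
        exact_mod_cast (by omega : n ≠ 0)
      rw [h2]
      exact pow_le_pow_left₀ (Real.rpow_nonneg hp.1 _) hn.le n
    rw [Real.norm_of_nonneg (mul_nonneg (by positivity) (mul_nonneg (by positivity) hp.1))]
    calc ((n : ℝ) + 1) * ((t : ℝ) ^ n * walkProb G n o o) ≤
          ((n : ℝ) + 1) * ((t : ℝ) ^ n * (ρ + δ) ^ n) := by gcongr
      _ = _ := by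
        rw [mul_pow]
        ring
  have hnorm : ‖(t : ℝ) * (ρ + δ)‖ < 1 := by
    rw [Real.norm_of_nonneg (by positivity)]
    exact htδ
  have hsum : Summable fun n : ℕ => ((n : ℝ) + 1) * ((t : ℝ) ^ n * walkProb G n o o) :=
    Summable.of_norm_bounded_eventually_nat
      ((summable_pow_mul_geometric_of_norm_lt_one 1 hnorm).add
        (summable_pow_mul_geometric_of_norm_lt_one 0 hnorm)) hev2
  have h3 := hsum.tsum_ofReal_ne_top
  convert h3 using 1
  unfold Fr
  refine tsum_congr fun n => ?_
  have hp := walkProb_mem hnb n o o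
  rw [pn_eq hnb, ENNReal.ofReal_mul (by positivity), ENNReal.ofReal_mul (by positivity),
    ENNReal.ofReal_add (by positivity) zero_le_one, ENNReal.ofReal_natCast, ENNReal.ofReal_one,
    ENNReal.ofReal_pow (by positivity), ENNReal.ofReal_coe_nnreal]

omit [NeZero D] in
theorem exists_rev (N : List ℕ → ℕ) (ξ : List ℕ → ℕ → Fin D) (w : List ℕ) :
    alive w (fun w => (N w.reverse, fun c => ξ w.reverse c) : Om D) ↔ Exists N w.reverse := by
  induction w using List.reverseRecOn with
  | nil => simp [alive, Exists]
  | append_singleton w c ih =>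
    rw [alive_snoc, ih, List.reverse_append]
    simp [Exists]

omit [NeZero D] in
theorem position_rev (o : V) (N : List ℕ → ℕ) (ξ : List ℕ → ℕ → Fin D) (w : List ℕ) :
    pos nb o w (fun w => (N w.reverse, fun c => ξ w.reverse c) : Om D) =
      position nb o ξ w.reverse := by
  induction w using List.reverseRecOn with
  | nil => simp [pos, position]
  | append_singleton w c ih =>
    rw [pos_snoc, ih, List.reverse_append]
    simp [position]

omit [NeZero D] in
theorem trace_eq (o : V) (N : List ℕ → ℕ) (ξ : List ℕ → ℕ → Fin D) :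
    trace nb o N ξ = trc nb o (fun w => (N w.reverse, fun c => ξ w.reverse c) : Om D) := by
  unfold trace trc
  congr 1
  ext e
  constructor
  · rintro ⟨w, c, h1, h2⟩
    refine ⟨w.reverse, c, ?_, ?_⟩
    · rw [exists_rev, List.reverse_append, List.reverse_reverse]
      exact h1
    · rw [position_rev, position_rev, List.reverse_append, List.reverse_reverse]
      exact h2
  · rintro ⟨w, c, h1, h2⟩
    rw [exists_rev, List.reverse_append] at h1
    rw [position_rev, position_rev, List.reverse_append] at h2
    exact ⟨w.reverse, c, h1, h2⟩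

theorem numEnds_eq_top {H : SimpleGraph V}
    (h : ∀ n : ℕ, ∃ K : Finset V, ∃ f : Fin n → (H.induce ((K : Set V)ᶜ)).ConnectedComponent,
      Function.Injective f ∧ ∀ i, (f i).supp.Infinite) : numEnds H = ⊤ := by
  rw [ENat.eq_top_iff_forall_ge]
  intro n
  obtain ⟨K, f, hf, hinf⟩ := h n
  unfold numEnds
  refine le_iSup_of_le K ?_
  have h1 : (Set.range f).encard = n := by
    rw [← Set.image_univ, hf.encard_image, Set.encard_univ]
    simp
  rw [← h1]
  exact Set.encard_le_encard (by rintro _ ⟨i, rfl⟩; exact hinf i)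

end aux

/-- **Benjamini's question, positive answer.** Let `G` be a connected, locally finite,
vertex-transitive graph on which simple random walk has spectral radius `ρ < 1`, and let `μ` be an
offspring law with `μ(0) = 0` and mean `1/ρ`. Then the trace of the branching random walk has
infinitely many ends almost surely. -/
theorem result {V : Type*} (G : SimpleGraph V) [G.LocallyFinite] (hG : G.Connected)
    (htrans : ∀ x y : V, ∃ γ : G ≃g G, γ x = y) (o : V) (hρ : spectralRadius G o < 1)
    (μ : PMF ℕ) (hμ0 : μ 0 = 0)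
    (hμ : ∑' k : ℕ, μ k * k = ENNReal.ofReal (1 / spectralRadius G o))
    {D : ℕ} [NeZero D] (nb : V → Fin D → V)
    (hnb : ∀ x, Function.Injective (nb x) ∧ Set.range (nb x) = G.neighborSet x)
    {Ω : Type*} [MeasurableSpace Ω] (P : Measure Ω) [IsProbabilityMeasure P]
    (N : List ℕ → Ω → ℕ) (ξ : List ℕ → ℕ → Ω → Fin D) (hBRW : IsBRW μ P N ξ) :
    ∀ᵐ ω ∂P, numEnds (trace nb o (fun w => N w ω) (fun w c => ξ w c ω)) = ⊤ := by
  have hR := rw_of hnb hG htrans
  have hc : Countable V := countable_of hR o
  set M := 1 / spectralRadius G o with hM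
  have hmean : mean μ = ENNReal.ofReal M := hμ
  have hm1 : (1 : ℝ≥0∞) ≤ mean μ := by
    rw [← μ.tsum_coe]
    unfold mean
    refine ENNReal.tsum_le_tsum fun k => ?_
    rcases Nat.eq_zero_or_pos k with rfl | hk
    · rw [hμ0]
      exact zero_le
    · calc μ k = μ k * 1 := by rw [mul_one]
        _ ≤ μ k * k := by
          gcongr
          exact_mod_cast hk
  have hM1 : 1 ≤ M := by
    rw [hmean] at hm1
    by_contra h
    push Not at h
    have : ENNReal.ofReal M < 1 := by
      rw [← ENNReal.ofReal_one]
      exact (ENNReal.ofReal_lt_ofReal_iff zero_lt_one).2 h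
    exact absurd hm1 (not_le.2 this)
  have hρ0 : 0 < spectralRadius G o := one_div_pos.1 (lt_of_lt_of_le zero_lt_one hM1)
  have hM2 : 1 < M := by
    rw [hM, lt_div_iff₀ hρ0]
    linarith
  have hmean1 : 1 < mean μ := by
    rw [hmean, ← ENNReal.ofReal_one]
    exact (ENNReal.ofReal_lt_ofReal_iff (by linarith)).2 hM2
  have hμ1 : μ 1 < 1 := by
    rcases (μ.coe_le_one 1).lt_or_eq with h | h
    · exact h
    · exfalso
      rw [PMF.apply_eq_one_iff] at h
      have : mean μ = 1 := by
        unfold mean
        rw [tsum_eq_single 1]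
        · have h2 : μ 1 = 1 := (PMF.apply_eq_one_iff μ 1).2 h
          rw [h2]
          simp
        · intro k hk
          have h3 : μ k = 0 := by
            rw [PMF.apply_eq_zero_iff, h]
            exact hk
          rw [h3, zero_mul]
      rw [this] at hmean1
      exact lt_irrefl _ hmean1
  have hF : ∀ r : ℝ≥0∞, r < mean μ → ∀ x, Fr nb r x x ≠ ∞ := by
    intro r hr x
    rw [hmean] at hr
    exact Fr_finite hnb hR o hr x
  -- almost sure properties of the canonical tree
  have hcan : ∀ᵐ ω ∂(P0 D μ), numEnds (trc nb o ω) = ⊤ := by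
    filter_upwards [ae_pair hR hμ0 hmean hM2 hμ1 hF, ae_child hμ0, ae_split hμ0 hμ1,
      ae_infinite hR hμ0 hmean1 hF] with ω h1 h2 h3 h4
    exact numEnds_eq_top fun n => det_ends h1 h2 h3 h4 n
  -- transfer
  let Z : Ω → Om D := fun ω (w : List ℕ) => (N w.reverse ω, fun c => ξ w.reverse c ω)
  have hZm : ∀ w : List ℕ, Measurable fun ω => (N w ω, fun c => ξ w c ω) := fun w =>
    (hBRW.measurable_N w).prodMk (measurable_pi_lambda _ fun c => hBRW.measurable_ξ w c)
  have hZ : Measurable Z := measurable_pi_lambda _ fun w : List ℕ => hZm w.reverse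
  have hind : iIndepFun (fun (w : List ℕ) ω => (N w.reverse ω, fun c => ξ w.reverse c ω)) P :=
    hBRW.indep.precomp List.reverse_injective
  have hlaw : P.map Z = P0 D μ := by
    have h1 := hind.map_fun_eq_infinitePi_map (fun w : List ℕ => hZm w.reverse)
    have h2 : P.map Z = Measure.infinitePi fun w : List ℕ =>
        P.map fun ω => (N w.reverse ω, fun c => ξ w.reverse c ω) := h1
    rw [h2]
    unfold P0 nu
    congr 1
    funext w
    exact hBRW.law w.reverse
  rw [← hlaw] at hcan
  filter_upwards [ae_of_ae_map hZ.aemeasurable hcan] with ω hω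
  rw [trace_eq]
  exact hω

end Pool.Agent.Results.MP_9b4c76_pr.InfinitelyManyEnds
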